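import Mathlib
import Pool.Agent.Q113.XK.All0

/-!
# The Erdős matching conjecture for `n ≥ n0(k)` and all `s`
-/

set_option autoImplicit false

namespace Pool.Agent.Results.MP_9079fe_co.LargeGroundSets

open Finset

/-- For every `k ≥ 3` there is `n0` such that for all `n ≥ n0` and ALL `s` with `k (s+1) ≤ n` the largest
family of `k`-subsets of an `n`-set with no `s+1` pairwise disjoint members has size exactly
`max (C(n,k) - C(n-s,k)) (C(k(s+1)-1,k))`. -/
theorem result (k : ℕ) (hk : 3 ≤ k) : ∃ n0 : ℕ, ∀ n : ℕ, n0 ≤ n → ∀ s : ℕ, k * (s + 1) ≤ n →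
    IsGreatest
      {m : ℕ | ∃ F : Finset (Finset (Fin n)),
        (∀ A ∈ F, A.card = k) ∧
        (∀ M ⊆ F, (M : Set (Finset (Fin n))).PairwiseDisjoint id → M.card ≤ s) ∧
        F.card = m}
      (max (n.choose k - (n - s).choose k) ((k * (s + 1) - 1).choose k)) := by
  obtain ⟨n0, h0⟩ := Pool.Agent.Q113.XK.xall k hk
  refine ⟨n0, fun n hn s hs => ?_⟩
  have hub : ∀ m ∈ {m : ℕ | ∃ F : Finset (Finset (Fin n)),
        (∀ A ∈ F, A.card = k) ∧
        (∀ M ⊆ F, (M : Set (Finset (Fin n))).PairwiseDisjoint id → M.card ≤ s) ∧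
        F.card = m}, m ≤ max (n.choose k - (n - s).choose k) ((k * (s + 1) - 1).choose k) := by
    rintro m ⟨F, hF, hM, rfl⟩
    by_contra hcon
    obtain ⟨M, hMF, hMM, hMc⟩ := h0 n hn s hs F hF (not_le.1 hcon)
    have h := hM M hMF (fun a ha b hb hab => hMM a ha b hb hab)
    omega
  refine ⟨?_, hub⟩
  rcases le_total (n.choose k - (n - s).choose k) ((k * (s + 1) - 1).choose k) with h | h
  · rw [max_eq_right h]
    obtain ⟨T, -, hTc⟩ := Finset.exists_subset_card_eq (s := (univ : Finset (Fin n)))
      (n := k * (s + 1) - 1) (by rw [card_univ, Fintype.card_fin]; omega)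
    refine ⟨T.powersetCard k, fun A hA => (mem_powersetCard.1 hA).2, ?_, by
      rw [card_powersetCard, hTc]⟩
    intro M hM hMd
    by_contra hcon
    have h1 : (M.biUnion id).card = ∑ A ∈ M, A.card := card_biUnion fun a ha b hb hab => hMd ha hb hab
    have h2 : ∑ A ∈ M, A.card = M.card * k := by
      rw [sum_congr rfl (fun A hA => (mem_powersetCard.1 (hM hA)).2), sum_const, smul_eq_mul]
    have h3 : M.biUnion id ⊆ T := by
      intro v hv
      obtain ⟨A, hA, hvA⟩ := mem_biUnion.1 hv
      exact (mem_powersetCard.1 (hM hA)).1 hvA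
    have h4 := card_le_card h3
    rw [h1, h2, hTc] at h4
    have h5 : (s + 1) * k ≤ M.card * k := Nat.mul_le_mul_right _ (by omega)
    have h6 : 1 ≤ k * (s + 1) := Nat.mul_pos (by omega) (by omega)
    have h7 : (s + 1) * k = k * (s + 1) := by ring
    omega
  · rw [max_eq_left h]
    have hsn : s ≤ n := by
      have : s + 1 ≤ k * (s + 1) := Nat.le_mul_of_pos_left _ (by omega)
      omega
    obtain ⟨S, -, hSc⟩ := Finset.exists_subset_card_eq (s := (univ : Finset (Fin n))) (n := s)
      (by rw [card_univ, Fintype.card_fin]; exact hsn)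
    refine ⟨((univ : Finset (Fin n)).powersetCard k) \ ((univ \ S).powersetCard k), ?_, ?_, ?_⟩
    · intro A hA
      exact (mem_powersetCard.1 (mem_sdiff.1 hA).1).2
    · intro M hM hMd
      have hne : ∀ A ∈ M, ∃ v ∈ S, v ∈ A := by
        intro A hA
        have h1 := mem_sdiff.1 (hM hA)
        by_contra hcon
        push Not at hcon
        apply h1.2
        rw [mem_powersetCard]
        refine ⟨fun v hv => ?_, (mem_powersetCard.1 h1.1).2⟩
        rw [mem_sdiff]
        exact ⟨mem_univ _, fun hvS => hcon v hvS hv⟩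
      have hn1 : 1 ≤ k * (s + 1) := Nat.mul_pos (by omega) (by omega)
      have hNe : Nonempty (Fin n) := ⟨⟨0, by omega⟩⟩
      choose! f hf using hne
      have hinj : Set.InjOn f (M : Set (Finset (Fin n))) := by
        intro A hA B hB hAB
        by_contra hne
        have hd := hMd hA hB hne
        have h1 := (hf A hA).2
        have h2 := (hf B hB).2
        rw [← hAB] at h2
        exact (Finset.disjoint_left.1 hd h1) h2
      rw [← hSc]
      exact card_le_card_of_injOn f (fun A hA => (hf A hA).1) hinj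
    · rw [card_sdiff_of_subset (powersetCard_mono (subset_univ _)), card_powersetCard,
        card_powersetCard, card_sdiff_of_subset (subset_univ _), hSc, card_univ, Fintype.card_fin]

end Pool.Agent.Results.MP_9079fe_co.LargeGroundSets
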